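import Pool.Agent.Helper15.RK.GoalsF

/-! # KFB: basic facts on kernel frames -/

open Complex Metric Set Filter Topology MeasureTheory
open scoped ContDiff ComplexConjugate ComplexOrder Manifold Matrix

namespace Pool.Agent.Helper4.RK

open Pool.Agent.Helper95.Lin Pool.Agent.Helper16.Abund Pool.Agent.Helper92.Orb
  Pool.Agent.Helper10.SP Pool.Agent.Helper95.RK Pool.Agent.Helper15.RK

/-- The Levi matrix is positive semidefinite. -/
theorem posSemidef_LM {n : ℕ} (hL : S_LMF) {W : Set (Cn n)} (hWo : IsOpen W) {Φ : Cn n → ℝ}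
    (h1 : ContDiffOn ℝ ∞ Φ W) {x : Cn n} (hx : x ∈ W) (hnn : ∀ e, 0 ≤ lev Φ x e) :
    (LM Φ x).PosSemidef := by
  obtain ⟨-, herm, hlev, -⟩ := hL W hWo Φ h1
  refine Matrix.PosSemidef.of_dotProduct_mulVec_nonneg (herm x hx) fun e => ?_
  have h2 := hlev x hx (star e)
  have h3 : star e ⬝ᵥ (LM Φ x *ᵥ e) = hermi (LM Φ x) (star e) (star e) := by
    unfold hermi
    simp only [dotProduct, Matrix.mulVec, Finset.mul_sum]
    refine Finset.sum_congr rfl fun a _ => Finset.sum_congr rfl fun b _ => ?_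
    simp only [Pi.star_apply, Complex.star_def, Complex.conj_conj]
    ring
  rw [h3, ← h2]
  exact_mod_cast hnn (star e)

/-- Smoothness of the values of a sesquilinear form. -/
theorem contDiffOn_hermi {m n : ℕ} {W : Set (Cn m)} {A : Cn m → Matrix (Fin n) (Fin n) ℂ}
    {u v : Cn m → Cn n} (hA : ∀ i j, ContDiffOn ℝ ∞ (fun x => A x i j) W)
    (hu : ContDiffOn ℝ ∞ u W) (hv : ContDiffOn ℝ ∞ v W) :
    ContDiffOn ℝ ∞ (fun x => hermi (A x) (u x) (v x)) W := by
  unfold hermi
  refine ContDiffOn.sum fun i _ => ContDiffOn.sum fun j _ => ?_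
  refine ((hA i j).mul ((contDiffOn_pi.1 hu) i)).mul ?_
  exact Complex.conjCLE.contDiff.comp_contDiffOn ((contDiffOn_pi.1 hv) j)

/-- Smoothness of a determinant. -/
theorem contDiffOn_det {m n : ℕ} {W : Set (Cn m)} {A : Cn m → Matrix (Fin n) (Fin n) ℂ}
    (hA : ∀ i j, ContDiffOn ℝ ∞ (fun x => A x i j) W) :
    ContDiffOn ℝ ∞ (fun x => (A x).det) W := by
  simp only [Matrix.det_apply]
  refine ContDiffOn.sum fun σ _ => ?_
  refine ContDiffOn.const_smul _ ?_
  exact contDiffOn_prod fun i _ => hA _ _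

/-- The determinant of `(w, u)` depends only on `L`. -/
theorem det_PM {b k : ℕ} {L : Cn (b + k) →ₗ[ℂ] Cn k} {w : Fin b → Cn (b + k)}
    (lin : LinearIndependent ℂ w) (Lw : ∀ i, L (w i) = 0) :
    ∃ δ : ℂ, δ ≠ 0 ∧ ∀ u : Fin k → Cn (b + k), (∀ α, L (u α) = Pi.single α 1) →
      (PM w u).det = δ := by
  classical
  have hker : LinearMap.ker (Fintype.linearCombination ℂ w) = ⊥ :=
    LinearMap.ker_eq_bot.2 (linearIndependent_iff_injective_fintypeLinearCombination.1 lin)
  obtain ⟨R, hR⟩ := LinearMap.exists_leftInverse_of_injective (Fintype.linearCombination ℂ w) hker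
  have hRw : ∀ i, R (w i) = Pi.single i 1 := by
    intro i
    have h1 := LinearMap.congr_fun hR (Pi.single i 1)
    simp only [LinearMap.comp_apply, LinearMap.id_apply] at h1
    rw [Fintype.linearCombination_apply_single, one_smul] at h1
    exact h1
  set A : Matrix (Fin (b + k)) (Fin (b + k)) ℂ :=
    Matrix.of fun i j => Fin.append (R (Pi.single j 1)) (L (Pi.single j 1)) i with hA
  have hexp : ∀ (m : ℕ) (S : Cn (b + k) →ₗ[ℂ] Cn m) (e : Cn (b + k)) (i : Fin m),
      ∑ j, S (Pi.single j 1) i * e j = S e i := by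
    intro m S e i
    conv_rhs => rw [pi_eq_sum_univ' e]
    rw [map_sum, Finset.sum_apply]
    refine Finset.sum_congr rfl fun j _ => ?_
    rw [map_smul, Pi.smul_apply, smul_eq_mul, mul_comm]
  have key : ∀ u : Fin k → Cn (b + k), (∀ α, L (u α) = Pi.single α 1) →
      A.det * (PM w u).det = 1 := by
    intro u hu
    rw [← Matrix.det_mul, ← Matrix.det_submatrix_equiv_self finSumFinEquiv]
    have hB : (A * PM w u).submatrix finSumFinEquiv finSumFinEquiv =
        Matrix.fromBlocks 1 (Matrix.of fun i α => R (u α) i) 0 1 := by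
      ext i j
      rw [Matrix.submatrix_apply, Matrix.mul_apply]
      rcases i with i | i <;> rcases j with j | j <;>
        simp only [hA, PM, Matrix.of_apply, finSumFinEquiv_apply_left, finSumFinEquiv_apply_right,
          Fin.append_left, Fin.append_right, Matrix.fromBlocks_apply₁₁, Matrix.fromBlocks_apply₁₂,
          Matrix.fromBlocks_apply₂₁, Matrix.fromBlocks_apply₂₂, hexp, hRw, Lw, hu,
          Matrix.one_apply, Pi.single_apply, Pi.zero_apply, Matrix.zero_apply]
    rw [hB, Matrix.det_fromBlocks_zero₂₁, Matrix.det_one, Matrix.det_one, one_mul]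
  by_cases hAd : A.det = 0
  · refine ⟨1, one_ne_zero, fun u hu => ?_⟩
    have := key u hu
    rw [hAd, zero_mul] at this
    exact absurd this zero_ne_one
  · refine ⟨(A.det)⁻¹, inv_ne_zero hAd, fun u hu => ?_⟩
    exact eq_inv_of_mul_eq_one_right (key u hu)

/-- KFB. -/
theorem kfb (hLMF : S_LMF) (hLIMK : S_LIMK) : S_KFB := by
  intro b k Φ W L w v hF
  obtain ⟨sm, herm, hlev, -⟩ := hLMF W hF.isOpen Φ hF.smP
  have hpsd : ∀ x ∈ W, (LM Φ x).PosSemidef := fun x hx =>
    posSemidef_LM hLMF hF.isOpen hF.smP hx (hF.psd x hx)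
  have honly : ∀ x ∈ W, ∀ e, hermi (LM Φ x) e e = 0 → e = ∑ α, L e α • v α x := by
    intro x hx e he
    refine hF.only x hx e ?_
    rw [← hlev x hx e] at he
    exact_mod_cast he
  have hlim := fun (x : Cn (b + k)) (hx : x ∈ W) (H : Matrix (Fin (b + k)) (Fin (b + k)) ℂ)
    (hH : H.PosDef) => hLIMK H (LM Φ x) L w (fun α => v α x) hH (hpsd x hx) (hF.norm x hx)
      (hF.ker x hx) (honly x hx) hF.lin hF.Lw
  obtain ⟨δ, hδ, hdet⟩ := det_PM hF.lin hF.Lw
  refine ⟨?_, ?_, ?_, ?_, ?_, ?_⟩
  · intro x hx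
    have h1 := (hlim x hx 1 Matrix.PosDef.one).2.1.det_pos
    rw [Complex.lt_def] at h1
    exact ⟨h1.2.symm, h1.1⟩
  · exact contDiffOn_det fun i j => contDiffOn_hermi sm contDiffOn_const contDiffOn_const
  · intro x hx
    rw [hdet _ (hF.norm x hx)]
    exact hδ
  · intro x hx y hy
    rw [hdet _ (hF.norm x hx), hdet _ (hF.norm y hy)]
  · intro x hx c
    have h1 := hlev x hx (∑ α, c α • v α x)
    have h2 : hermi (LM Φ x) (∑ α, c α • v α x) (∑ α, c α • v α x) = 0 := by
      unfold hermi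
      rw [Finset.sum_comm]
      refine Finset.sum_eq_zero fun j _ => ?_
      rw [← Finset.sum_mul]
      have h3 : ∑ i, LM Φ x i j * (∑ α, c α • v α x) i = 0 := by
        simp only [Finset.sum_apply, Pi.smul_apply, smul_eq_mul, Finset.mul_sum]
        rw [Finset.sum_comm]
        refine Finset.sum_eq_zero fun α _ => ?_
        have h4 := hF.ker x hx α j
        calc ∑ i, LM Φ x i j * (c α * v α x i) = c α * ∑ i, LM Φ x i j * v α x i := by
              rw [Finset.mul_sum]
              refine Finset.sum_congr rfl fun i _ => ?_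
              ring
          _ = 0 := by rw [h4, mul_zero]
      rw [h3, zero_mul]
    rw [h2] at h1
    exact_mod_cast h1
  · intro g hg
    refine ⟨fun α β => ?_, fun hpos x hx => ?_⟩
    · exact contDiffOn_hermi hg (hF.smv α) (hF.smv β)
    · have h1 : (gram g v x).PosDef := (hlim x hx (g x) (hpos x hx)).2.2.1
      have h2 := h1.det_pos
      rw [Complex.lt_def] at h2
      exact ⟨h1, h2.2.symm, h2.1⟩

end Pool.Agent.Helper4.RK
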