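import Pool.Agent.Helper95.RK.GoalsB
import Pool.Agent.Helper95.RK.Basics
import Pool.Agent.Helper19.Lin.KACT

/-!
# Packet RK-KETG: the étale relation of a parametrization with cocompact image
-/

open Complex Metric Set Filter Topology MeasureTheory
open scoped ContDiff ComplexConjugate ComplexOrder Manifold Matrix

namespace Pool.Agent.Helper4.RK

open Pool.Agent.Helper95.Lin Pool.Agent.Helper16.Abund Pool.Agent.Helper92.Orb
  Pool.Agent.Helper10.SP Pool.Agent.Helper95.RK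

universe u v

theorem ketg (hPARBK : S_PARBK.{u, v}) (hPMB : S_PMB.{u, v}) : S_KETG.{u, v} := by
  intro b k G M _ _ _ _ _ _ _ h v hD T E hE hcomp
  obtain ⟨C, hCT, hCc, hcov⟩ := hcomp
  obtain ⟨hP1, hP2, hP3, hP4, hP5⟩ := hPARBK hD
  have hT : IsOpen T := hE.1.1
  obtain ⟨hpos, hform⟩ := hD.kah
  obtain ⟨hs, hc⟩ := hform T E hE.1
  have hherm : HermMetric (b + k) M h := ⟨hpos, fun V ψ hψ => (hform V ψ hψ).1⟩
  obtain ⟨-, hHp, hHf, -⟩ := (hPMB hD h hherm hD.inv).1 T E hE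
  obtain ⟨hsm, hcl⟩ := Pool.Agent.Helper19.Lin.closed_of_form hT (H := pm (b + k) h E)
    (fun x hx => (hHp x hx).1) (κ := metricForm (b + k) h E) (by
      intro x hx u v
      unfold metricForm
      rw [← hHf x hx]
      rfl) hs hc
  have hEc : ContinuousOn E T := hE.1.2.continuousOn
  refine ⟨⟨hT, ?_, ?_, ?_, ?_, ?_, ?_, ?_, ?_, ?_, ?_⟩, hHp, hsm, hcl, ?_⟩
  · -- nonempty
    obtain ⟨p⟩ := (inferInstance : Nonempty M)
    obtain ⟨γ, x, hx, -⟩ := hcov p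
    exact ⟨x, hCT hx⟩
  · -- mem
    exact fun γ x y hxy => ⟨hxy.1, hxy.2.1⟩
  · -- one
    exact fun x hx => ⟨hx, hx, one_smul _ _⟩
  · -- inv
    exact fun γ x y hxy => ⟨hxy.2.1, hxy.1, inv_smul_eq_iff.2 hxy.2.2.symm⟩
  · -- mul
    intro γ γ' x y z hxy hyz
    exact ⟨hxy.1, hyz.2.1, by rw [mul_smul, hxy.2.2, hyz.2.2]⟩
  · -- loc
    intro γ x y hxy
    obtain ⟨τ, U, W, hU, hW, hxU, hyW, hUV, hWV, hτ, hinj, hmaps, -, hdet, hiff⟩ :=
      hP3 T T E E hE hE γ x hxy.1 y hxy.2.1 hxy.2.2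
    refine ⟨τ, U, W, hU, hW, hxU, hyW, hUV, hWV, hτ, hinj, hmaps, hdet, fun x' hx' y' hy' => ?_⟩
    rw [← hiff x' hx' y' hy']
    exact ⟨fun h => h.2.2, fun h => ⟨hUV hx', hWV hy', h⟩⟩
  · -- closed
    intro γ x hx y hy hlim
    refine ⟨hx, hy, ?_⟩
    by_contra hne
    obtain ⟨A, B, hA, hB, hxA, hyB, hAB⟩ := t2_separation hne
    have h1 : ContinuousAt (fun x => γ • E x) x :=
      (hP5 γ).continuousAt.comp (hEc.continuousAt (hT.mem_nhds hx))
    have h2 : ContinuousAt E y := hEc.continuousAt (hT.mem_nhds hy)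
    obtain ⟨x', hx', y', hy', hR⟩ := hlim _ (h1.preimage_mem_nhds (hA.mem_nhds hxA)) _
      (h2.preimage_mem_nhds (hB.mem_nhds hyB))
    refine Set.disjoint_left.1 hAB (show γ • E x' ∈ A from hx') ?_
    rw [hR.2.2]
    exact hy'
  · -- fin
    intro C' hCT' hC'
    have hK := hD.proper (E '' C') (hC'.image_of_continuousOn (hEc.mono hCT'))
    refine hK.subset ?_
    rintro γ ⟨x, hx, y, hy, hR⟩
    exact ⟨E x, mem_image_of_mem E hx, by rw [hR.2.2]; exact mem_image_of_mem E hy⟩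
  · -- coc
    refine ⟨C, hCT, hCc, fun x hx => ?_⟩
    obtain ⟨γ, y, hy, hp⟩ := hcov (E x)
    exact ⟨γ, y, hy, hx, hCT hy, hp⟩
  · -- conn
    intro S hST hS hTS hinv
    have hopen : ∀ U ⊆ T, IsOpen U → IsOpen (⋃ γ : G, (fun x => γ • E x) '' U) := by
      intro U hU hUo
      exact isOpen_iUnion fun γ => hP4 _ _ (hP2 γ _ _ hE).1 U hU hUo
    have hA := hopen S hST hS
    have hB := hopen (T \ S) sdiff_subset hTS
    have hcompl : (⋃ γ : G, (fun x => γ • E x) '' S)ᶜ =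
        ⋃ γ : G, (fun x => γ • E x) '' (T \ S) := by
      ext p
      constructor
      · intro hp
        obtain ⟨γ, x, hx, hγ⟩ := hcov p
        refine mem_iUnion.2 ⟨γ⁻¹, x, ⟨hCT hx, fun hxS => hp ?_⟩, ?_⟩
        · exact mem_iUnion.2 ⟨γ⁻¹, x, hxS, by
            show γ⁻¹ • E x = p
            rw [← hγ, inv_smul_smul]⟩
        · show γ⁻¹ • E x = p
          rw [← hγ, inv_smul_smul]
      · intro hp hp'
        obtain ⟨γ, y, ⟨hyT, hyS⟩, hy⟩ := mem_iUnion.1 hp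
        obtain ⟨γ', x, hxS, hx⟩ := mem_iUnion.1 hp'
        refine hyS ((hinv (γ⁻¹ * γ') x y ⟨hST hxS, hyT, ?_⟩).1 hxS)
        have hx1 : γ' • E x = p := hx
        have hy1 : γ • E y = p := hy
        rw [mul_smul, hx1, ← hy1, inv_smul_smul]
    have hclopen : IsClopen (⋃ γ : G, (fun x => γ • E x) '' S) := by
      refine ⟨⟨?_⟩, hA⟩
      rw [hcompl]
      exact hB
    rcases isClopen_iff.1 hclopen with h0 | h1
    · left
      by_contra hne
      obtain ⟨x, hx⟩ := nonempty_iff_ne_empty.2 hne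
      have : (fun x => (1 : G) • E x) x ∈ ⋃ γ : G, (fun x => γ • E x) '' S :=
        mem_iUnion.2 ⟨1, x, hx, rfl⟩
      rw [h0] at this
      exact this
    · right
      refine Subset.antisymm hST fun x hx => ?_
      by_contra hxS
      have : (fun x => (1 : G) • E x) x ∈ ⋃ γ : G, (fun x => γ • E x) '' (T \ S) :=
        mem_iUnion.2 ⟨1, x, ⟨hx, hxS⟩, rfl⟩
      rw [← hcompl, h1] at this
      exact this (mem_univ _)
  · -- invariance
    rintro U τ ⟨hU, hτ, γ, hγ⟩ x hx u w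
    have hxT := (hγ x hx).1
    have hyT := (hγ x hx).2.1
    rw [hHf _ hyT, hHf _ hxT]
    have hEx : MDifferentiableAt 𝓘(ℂ, Fin (b + k) → ℂ) 𝓘(ℂ, Fin (b + k) → ℂ) E x :=
      hE.1.2.mdifferentiableAt (hT.mem_nhds hxT)
    have hEy : MDifferentiableAt 𝓘(ℂ, Fin (b + k) → ℂ) 𝓘(ℂ, Fin (b + k) → ℂ) E (τ x) :=
      hE.1.2.mdifferentiableAt (hT.mem_nhds hyT)
    have hτx : MDifferentiableAt 𝓘(ℂ, Fin (b + k) → ℂ) 𝓘(ℂ, Fin (b + k) → ℂ) τ x :=
      mdifferentiableAt_iff_differentiableAt.2 (hτ.differentiableAt (hU.mem_nhds hx))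
    have h1 := mfderiv_comp x hEy hτx
    have h2 := mfderiv_comp x (g := fun y : M => γ • y) (f := E) (hD.act.holo γ (E x)) hEx
    have h3 : (E ∘ τ) =ᶠ[𝓝 x] ((fun y : M => γ • y) ∘ E) := by
      filter_upwards [hU.mem_nhds hx] with y hy using (hγ y hy).2.2.symm
    have h4 := h3.mfderiv_eq (I := 𝓘(ℂ, Fin (b + k) → ℂ)) (I' := 𝓘(ℂ, Fin (b + k) → ℂ))
    have h5 : ∀ e : Cn (b + k), dvec (b + k) E (τ x) (fderiv ℂ τ x e) =
        tvec (b + k) (fun y : M => γ • y) (E x) (dvec (b + k) E x e) := by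
      intro e
      have h6 : (mfderiv 𝓘(ℂ, Fin (b + k) → ℂ) 𝓘(ℂ, Fin (b + k) → ℂ) (E ∘ τ) x :
          (Fin (b + k) → ℂ) →L[ℂ] (Fin (b + k) → ℂ)) e =
          dvec (b + k) E (τ x) (fderiv ℂ τ x e) := by
        rw [h1, mfderiv_eq_fderiv]
        rfl
      have h7 : (mfderiv 𝓘(ℂ, Fin (b + k) → ℂ) 𝓘(ℂ, Fin (b + k) → ℂ)
          ((fun y : M => γ • y) ∘ E) x :
          (Fin (b + k) → ℂ) →L[ℂ] (Fin (b + k) → ℂ)) e =
          tvec (b + k) (fun y : M => γ • y) (E x) (dvec (b + k) E x e) := by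
        rw [h2]
        rfl
      rw [← h6, ← h7]
      exact congrArg (fun L : Cn (b + k) →L[ℂ] Cn (b + k) => L e) h4
    rw [h5, h5, ← (hγ x hx).2.2]
    exact hD.inv γ (E x) _ _

end Pool.Agent.Helper4.RK
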